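import Mathlib
import Pool.Agent.V11322.GI.Part

/-!
# The Satake parameters at one prime and the irreducibility for every `ℓ`

Let `π` be an algebraic cuspidal automorphic representation of `GL_n` over `ℚ` and
`ρ : Gal(ℚbar/ℚ) → GL_n(ℚbar_ℓ)` a continuous representation attached to `π`. Let `S p` be the
multiset of the eigenvalues of the Satake parameter `a_σ`, `σ = π_p ⊗ |det|^((1-n)/2)`, at the
primes `p ≠ ℓ` at which `π` is unramified. We show, for every `ℓ`:

* every filtration of `ρ` by subrepresentations is visible at ALL primes `p` at the same time: the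
  multisets `S p` are unions of parts `B_1(p), …, B_c(p)`, `|B_i(p)|` the dimension of the `i`-th
  quotient, such that `(∏ B_i(p)) ^ N = p ^ (a_i)`, where `N > 0` and the integers `a_i` do not
  depend on `p`;
* the numbers `a_i / (N |B_i|)` differ by less than one (by the bound of Jacquet and Shalika at one
  prime);
* so if for ONE prime `p` (outside of `ℓ`) no subset of `S p` other than `∅` and `S p` has a product
  one of whose powers is an integral power of `p`, then `ρ` is irreducible, for every `ℓ ≠ p`, and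
  every `ρ` attached to `π`.

Nothing is assumed at the infinite place (no regularity), no self-duality, no purity (Ramanujan),
nothing at `ℓ`, and nothing at the ramified primes. All that is used of the Satake parameters is
that they are algebraic at three primes, and, for the second statement, the bound of Jacquet and
Shalika at one of them: the quotient of two parameters at `p` has absolute value less than `p`.

Proof. The determinants of the stable subspaces are continuous characters of `Gal(ℚbar/ℚ)` with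
algebraic values at three Frobenius elements; by the `ℓ`-adic six exponentials theorem (proved in
the library `Pool.Agent.Y115`) they are, up to finite order, rational powers of the cyclotomic
character.
-/

set_option autoImplicit false

namespace Pool.Agent.Results.MP_fa5bba_nt.SatakePartitions

open NumberField Polynomial Matrix

/-- `Q` is a prime ideal above the prime number `p` of the ring of all algebraic integers. -/
def PrimeOver (p : ℕ) (Q : Ideal (𝓞 (AlgebraicClosure ℚ))) : Prop :=
  Q.IsPrime ∧ (p : 𝓞 (AlgebraicClosure ℚ)) ∈ Q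

/-- `g` is in the inertia group at `Q`. -/
def IsInertia (Q : Ideal (𝓞 (AlgebraicClosure ℚ))) (g : Gal(AlgebraicClosure ℚ/ℚ)) : Prop :=
  ∀ x : 𝓞 (AlgebraicClosure ℚ), g • x - x ∈ Q

/-- `g` is an (arithmetic) Frobenius element at the prime ideal `Q` above `p`. -/
def IsFrobenius (p : ℕ) (Q : Ideal (𝓞 (AlgebraicClosure ℚ))) (g : Gal(AlgebraicClosure ℚ/ℚ)) :
    Prop := ∀ x : 𝓞 (AlgebraicClosure ℚ), g • x - x ^ p ∈ Q

variable {ℓ : ℕ} [Fact ℓ.Prime] {n : ℕ}

/-- The matrix of `g`. -/
noncomputable def mat (ρ : Gal(AlgebraicClosure ℚ/ℚ) →* GL (Fin n) (PadicAlgCl ℓ))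
    (g : Gal(AlgebraicClosure ℚ/ℚ)) : Matrix (Fin n) (Fin n) (PadicAlgCl ℓ) :=
  (ρ g : GL (Fin n) (PadicAlgCl ℓ))

/-- The representation `ρ` is unramified at `p`, and the eigenvalues (with multiplicities) of every
geometric Frobenius element at `p` correspond under `ι` to the complex numbers in `S`. -/
structure AttachedAt (ρ : Gal(AlgebraicClosure ℚ/ℚ) →* GL (Fin n) (PadicAlgCl ℓ))
    (ι : PadicAlgCl ℓ →+* ℂ) (p : ℕ) (S : Multiset ℂ) : Prop where
  unramified : ∀ Q, PrimeOver p Q → ∀ g, IsInertia Q g → ρ g = 1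
  frobenius : ∀ Q, PrimeOver p Q → ∀ g, IsFrobenius p Q g → ((mat ρ g⁻¹).charpoly.map ι).roots = S

/-- `U` is a subrepresentation of `ρ`. -/
def Stable (ρ : Gal(AlgebraicClosure ℚ/ℚ) →* GL (Fin n) (PadicAlgCl ℓ))
    (U : Submodule (PadicAlgCl ℓ) (Fin n → PadicAlgCl ℓ)) : Prop := ∀ g, ∀ x ∈ U, mat ρ g *ᵥ x ∈ U

/-- `ρ` is irreducible. -/
def Irreducible (ρ : Gal(AlgebraicClosure ℚ/ℚ) →* GL (Fin n) (PadicAlgCl ℓ)) : Prop :=
  0 < n ∧ ∀ U, Stable ρ U → U = ⊥ ∨ U = ⊤

/-- `V 0 = ⊥ ≤ V 1 ≤ … ≤ V c = ⊤` is a filtration of `ρ` by subrepresentations. -/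
def Filtration (ρ : Gal(AlgebraicClosure ℚ/ℚ) →* GL (Fin n) (PadicAlgCl ℓ)) (c : ℕ)
    (V : ℕ → Submodule (PadicAlgCl ℓ) (Fin n → PadicAlgCl ℓ)) : Prop :=
  (∀ i, Stable ρ (V i)) ∧ V 0 = ⊥ ∧ V c = ⊤ ∧ ∀ i < c, V i ≤ V (i + 1)

/-- The bound of Jacquet and Shalika: the quotients of the members of `S` have absolute value less
than `p`. -/
def JacquetShalika (p : ℕ) (S : Multiset ℂ) : Prop := ∀ a ∈ S, ∀ b ∈ S, ‖a‖ < p * ‖b‖

/-- No part of `S` other than `0` and `S` has a product one of whose powers is an integral power of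
`p`. -/
def NoRelation (p : ℕ) (S : Multiset ℂ) : Prop :=
  ∀ B ≤ S, B ≠ 0 → B ≠ S → ∀ (N : ℕ) (a : ℤ), 0 < N → B.prod ^ N ≠ (p : ℂ) ^ a

/-- **Partitions of the Satake parameters, and irreducibility from one prime.**

Let complex numbers `S p` be given for the primes `p` in a set `T` of at least three primes, all
algebraic. Let `ℓ ∉ T` and let `ρ` be continuous and attached to `S` at the primes in `T`.

(1) For every filtration of `ρ` by subrepresentations there are `N > 0` and integers `a_i` such that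
for all `p ∈ T` the multiset `S p` is the sum of parts `B i` with `dim V i / V (i - 1)` elements and
`(∏ B i) ^ N = p ^ (a_i)`. If `S p` satisfies the bound of Jacquet and Shalika for one `p ∈ T`, then
`a_i / (N dim i) < a_j / (N dim j) + 1` for all `i, j` with positive dimensions.

(2) If for one `p ∈ T` there is no relation between the members of a proper part of `S p`, then `ρ`
is irreducible. -/
theorem result (ℓ : ℕ) [Fact ℓ.Prime] {n : ℕ} (hn : 0 < n) (S : ℕ → Multiset ℂ) (T : Set ℕ)
    (hT3 : 3 ≤ T.encard) (hT : ∀ p ∈ T, p.Prime ∧ p ≠ ℓ)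
    (halg : ∀ p ∈ T, ∀ a ∈ S p, IsAlgebraic ℚ a) (ι : PadicAlgCl ℓ →+* ℂ)
    (ρ : Gal(AlgebraicClosure ℚ/ℚ) →* GL (Fin n) (PadicAlgCl ℓ)) (hρ : Continuous ρ)
    (hS : ∀ p ∈ T, AttachedAt ρ ι p (S p)) :
    (∀ (c : ℕ) (V : ℕ → Submodule (PadicAlgCl ℓ) (Fin n → PadicAlgCl ℓ)), Filtration ρ c V →
      ∃ (N : ℕ) (a : ℕ → ℤ), 0 < N ∧
        (∀ p ∈ T, ∃ B : ℕ → Multiset ℂ, ∑ i ∈ Finset.range c, B i = S p ∧
          ∀ i < c, Module.finrank (PadicAlgCl ℓ) (V i) + Multiset.card (B i) =
            Module.finrank (PadicAlgCl ℓ) (V (i + 1)) ∧ (B i).prod ^ N = (p : ℂ) ^ (a i)) ∧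
        ((∃ p ∈ T, JacquetShalika p (S p)) → ∀ i < c, ∀ j < c, V i < V (i + 1) →
          V j < V (j + 1) → ∀ d e : ℕ,
            Module.finrank (PadicAlgCl ℓ) (V i) + d = Module.finrank (PadicAlgCl ℓ) (V (i + 1)) →
            Module.finrank (PadicAlgCl ℓ) (V j) + e = Module.finrank (PadicAlgCl ℓ) (V (j + 1)) →
            (a i : ℝ) / (N * d) < (a j : ℝ) / (N * e) + 1)) ∧
    ((∃ p ∈ T, NoRelation p (S p)) → Irreducible ρ) := by
  classical
  have hgood : ∀ p ∈ T, ∀ Q : Ideal (𝓞 (AlgebraicClosure ℚ)), Q.IsPrime →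
      (p : 𝓞 (AlgebraicClosure ℚ)) ∈ Q → ∀ g, IsFrobenius p Q g →
      ((mat ρ g⁻¹).charpoly.map ι).roots = S p :=
    fun p hp Q' hQ' hpQ' g hg => (hS p hp).frobenius Q' ⟨hQ', hpQ'⟩ g hg
  have hpart : ∀ (c : ℕ) (V : ℕ → Submodule (PadicAlgCl ℓ) (Fin n → PadicAlgCl ℓ)),
      Filtration ρ c V → ∃ (N : ℕ) (a : ℕ → ℤ), 0 < N ∧ ∀ p ∈ T, ∃ B : ℕ → Multiset ℂ,
        ∑ i ∈ Finset.range c, B i = S p ∧
          ∀ i < c, Module.finrank (PadicAlgCl ℓ) (V i) + Multiset.card (B i) =
            Module.finrank (PadicAlgCl ℓ) (V (i + 1)) ∧ (B i).prod ^ N = (p : ℂ) ^ (a i) := by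
    rintro c V ⟨h1, h2, h3, h4⟩
    exact Pool.Agent.V11322.GI.partition ρ hρ ι T hT3 hT S hgood halg c V
      (fun i g x hx => h1 i g x hx) h2 h3 h4
  refine ⟨fun c V hV => ?_, ?_⟩
  · obtain ⟨N, a, hN, hB⟩ := hpart c V hV
    refine ⟨N, a, hN, hB, ?_⟩
    rintro ⟨p, hp, hJS⟩ i hi j hj hlti hltj d e hd he
    obtain ⟨B, hsum, hBi⟩ := hB p hp
    have hle : ∀ i < c, B i ≤ S p := by
      intro i hi
      rw [← hsum]
      exact Finset.single_le_sum (f := B) (fun _ _ => Multiset.zero_le _) (Finset.mem_range.2 hi)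
    have hdi : Multiset.card (B i) = d := by
      have := (hBi i hi).1
      omega
    have hej : Multiset.card (B j) = e := by
      have := (hBi j hj).1
      omega
    have hd0 : 0 < d := by
      have := Submodule.finrank_lt_finrank_of_lt hlti
      omega
    have he0 : 0 < e := by
      have := Submodule.finrank_lt_finrank_of_lt hltj
      omega
    have h1 := Pool.Agent.V11322.GI.parts_js (hT p hp).1 (S p) (B i) (B j) hJS (hle i hi)
      (hle j hj) (by rw [Ne, ← Multiset.card_eq_zero, hdi]; exact hd0.ne')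
      (by rw [Ne, ← Multiset.card_eq_zero, hej]; exact he0.ne') N hN (a i) (a j)
      (hBi i hi).2 (hBi j hj).2
    rw [hdi, hej] at h1
    have h2 : (a i : ℝ) * e < a j * d + N * (d * e) := by exact_mod_cast h1
    have hNr : (0 : ℝ) < N := by exact_mod_cast hN
    have hdr : (0 : ℝ) < d := by exact_mod_cast hd0
    have her : (0 : ℝ) < e := by exact_mod_cast he0
    rw [div_add_one (by positivity), div_lt_div_iff₀ (by positivity) (by positivity)]
    nlinarith
  · rintro ⟨p, hp, hno⟩
    refine ⟨hn, fun U hU => ?_⟩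
    by_contra hcon
    push Not at hcon
    let V : ℕ → Submodule (PadicAlgCl ℓ) (Fin n → PadicAlgCl ℓ) :=
      fun i => if i = 0 then ⊥ else if i = 1 then U else ⊤
    have hV : Filtration ρ 2 V := by
      refine ⟨fun i g x hx => ?_, rfl, rfl, fun i hi => ?_⟩
      · rcases i with _ | _ | i
        · have hx' : x = 0 := hx
          rw [hx', mulVec_zero]
          exact (V 0).zero_mem
        · exact hU g x hx
        · exact Submodule.mem_top
      · rcases i with _ | _ | i
        · exact bot_le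
        · exact le_top
        · omega
    obtain ⟨N, a, hN, hB⟩ := hpart 2 V hV
    obtain ⟨B, hsum, hBi⟩ := hB p hp
    rw [Finset.sum_range_succ, Finset.sum_range_one] at hsum
    have h0 := hBi 0 (by norm_num)
    have h1 := hBi 1 (by norm_num)
    have e0 : Module.finrank (PadicAlgCl ℓ) (V 0) = 0 := finrank_bot _ _
    have e1 : Module.finrank (PadicAlgCl ℓ) (V (0 + 1)) =
      Module.finrank (PadicAlgCl ℓ) U := rfl
    have e2 : Module.finrank (PadicAlgCl ℓ) (V 1) = Module.finrank (PadicAlgCl ℓ) U := rfl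
    have e3 : Module.finrank (PadicAlgCl ℓ) (V (1 + 1)) = n := by
      show Module.finrank (PadicAlgCl ℓ)
        (⊤ : Submodule (PadicAlgCl ℓ) (Fin n → PadicAlgCl ℓ)) = n
      rw [finrank_top, Module.finrank_fin_fun]
    have hU0 : 0 < Module.finrank (PadicAlgCl ℓ) U := by
      rw [Module.finrank_pos_iff, Submodule.nontrivial_iff_ne_bot]
      exact hcon.1
    have hUn : Module.finrank (PadicAlgCl ℓ) U < n := by
      have h := Submodule.finrank_lt hcon.2
      rwa [Module.finrank_fin_fun] at h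
    refine hno (B 0) ?_ ?_ ?_ N (a 0) hN h0.2
    · rw [← hsum]
      exact Multiset.le_add_right _ _
    · rw [Ne, ← Multiset.card_eq_zero]
      omega
    · intro h
      have h2 : B 1 = 0 := by
        have h3 : B 0 + B 1 = B 0 + 0 := by rw [hsum, add_zero, h]
        exact add_left_cancel h3
      have h3 := h1.1
      rw [h2, Multiset.card_zero] at h3
      omega

end Pool.Agent.Results.MP_fa5bba_nt.SatakePartitions
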